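import Pool.Agent.helper68.QZ.Spec
import Pool.Agent.helper13.EQ.TC
import Pool.Agent.helper18.EQ.THR

/-! Row qz:LL. -/

set_option autoImplicit false

namespace Pool.Agent.QZ

open N1f72dd46 Filter MeasureTheory Complex Metric Pool.Agent.helper6.LD
open scoped ComplexConjugate

theorem LL : LL_stmt := by
  intro θ d ε hθ hZF hd hε
  have hδ : 0 < min (d / 2) (1 / 4 : ℝ) := lt_min (by linarith) (by norm_num)
  obtain ⟨T₀, hT₀, hTC⟩ := Pool.Agent.EQ.TC Pool.Agent.EQ.THR ε (min (d / 2) (1 / 4)) hε hδ (min_le_right _ _)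
  obtain ⟨T₁, hT₁⟩ := hZF (d / 4) (by linarith)
  refine ⟨max T₀ (T₁ + 3), le_max_of_le_left (by linarith), ?_⟩
  intro σ t hσ ht
  have hre : ((σ : ℂ) + t * I).re = σ := by simp
  have him : ((σ : ℂ) + t * I).im = t := by simp
  have h := hTC ((σ : ℂ) + t * I) (by rw [hre]; linarith) (by rw [him]; exact (le_max_left _ _).trans ht) (by
    intro ρ hρ h1 h2
    rw [hre] at h1
    rw [him] at h2
    have h3 := (abs_le.1 h2).1
    have h4 : T₁ ≤ ρ.im := by linarith [(le_max_right T₀ (T₁ + 3)).trans ht]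
    have h5 := hT₁ ρ hρ h4
    have h6 : min (d / 2) (1 / 4 : ℝ) ≤ d / 2 := min_le_left _ _
    linarith)
  rw [him] at h
  exact ⟨h.1, h.2.1⟩

end Pool.Agent.QZ
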